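import Mathlib

set_option autoImplicit false
open Set Function
open Cardinal hiding univ

namespace Pool.Agent.H.MP_3dcd8c

noncomputable def cc : ℕ → Cardinal.{0}
  | 0 => ℵ₀
  | n + 1 => Order.succ (cc n)

lemma cc_inf (n : ℕ) : ℵ₀ ≤ cc n := by
  induction n with
  | zero => exact le_rfl
  | succ n ih => exact ih.trans (Order.le_succ _)

lemma fs {ι L : Type} [DecidableEq ι] (F : (ι → L) → ι → Set L) (hc : ∀ c i, (F c i).Countable)
    (hu : ∀ c i a, F (update c i a) i = F c i) (s : Finset ι) :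
    ∀ (E : Set L), cc s.card ≤ #E → ∀ c0 : ι → L,
      ∃ c : ι → L, (∀ i, i ∉ s → c i = c0 i) ∧ ∀ i ∈ s, c i ∈ E ∧ c i ∉ F c i := by
  induction s using Finset.induction_on with
  | empty => intro E _ c0; exact ⟨c0, fun _ _ => rfl, by simp⟩
  | insert m s hm ih =>
    intro E hE c0
    rw [Finset.card_insert_of_notMem hm] at hE
    have hlt : cc s.card < #E := Order.succ_le_iff.mp hE
    obtain ⟨E', hE'E, hE'⟩ := Cardinal.le_mk_iff_exists_subset.mp hlt.le
    set S : Set (ι → L) := {c | (∀ i, i ∉ s → c i = c0 i) ∧ ∀ i ∈ s, c i ∈ E'} with hS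
    have hSc : #S ≤ cc s.card := by
      have h1 : #S ≤ #(s → E') := by
        refine Cardinal.mk_le_of_injective
          (f := fun (c : S) (i : s) => (⟨c.1 i.1, c.2.2 i.1 i.2⟩ : E')) ?_
        intro c d h
        apply Subtype.ext
        funext i
        by_cases hi : i ∈ s
        · exact congrArg Subtype.val (congrFun h ⟨i, hi⟩)
        · rw [c.2.1 i hi, d.2.1 i hi]
      refine h1.trans ?_
      rw [← Cardinal.power_def, hE', Cardinal.mk_fintype]
      exact Cardinal.power_nat_le (cc_inf _)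
    have hB : #(⋃ c ∈ S, F c m) ≤ cc s.card := by
      refine (Cardinal.mk_biUnion_le _ _).trans ?_
      have h2 : (⨆ c : S, #(F c.1 m)) ≤ ℵ₀ :=
        ciSup_le' fun c => Cardinal.le_aleph0_iff_set_countable.mpr (hc _ _)
      calc #S * (⨆ c : S, #(F c.1 m)) ≤ cc s.card * cc s.card :=
            mul_le_mul' hSc (h2.trans (cc_inf _))
        _ = cc s.card := Cardinal.mul_eq_self (cc_inf _)
    have hne : ¬ E ⊆ ⋃ c ∈ S, F c m := fun h =>
      absurd ((Cardinal.mk_le_mk_of_subset h).trans hB) (not_le.mpr hlt)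
    obtain ⟨a, haE, ha⟩ := not_subset.mp hne
    obtain ⟨c, hc1, hc2⟩ := ih E' hE'.ge (update c0 m a)
    have hcm : c m = a := by rw [hc1 m hm, update_self]
    refine ⟨c, ?_, ?_⟩
    · intro i hi
      rw [Finset.mem_insert, not_or] at hi
      rw [hc1 i hi.2, update_of_ne hi.1]
    · intro i hi
      rcases Finset.mem_insert.mp hi with rfl | hi
      · refine ⟨hcm ▸ haE, fun h => ha ?_⟩
        refine mem_biUnion (x := update c i (c0 i)) ⟨?_, ?_⟩ ?_
        · intro j hj
          by_cases hji : j = i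
          · subst hji; rw [update_self]
          · rw [update_of_ne hji, hc1 j hj, update_of_ne hji]
        · intro j hj
          have hji : j ≠ i := fun e => hm (e ▸ hj)
          rw [update_of_ne hji]
          exact (hc2 j hj).1
        · rw [hu, ← hcm]; exact h
      · exact ⟨hE'E (hc2 i hi).1, (hc2 i hi).2⟩

variable {K : Type}

def ag (n : ℕ) (y x : ℕ → K) : Prop := ∀ i < n, y i = x i

def Th (P : ℕ → Set (ℕ → K)) : Prop :=
  ∀ i, (∀ y y', ag (i + 1) y y' → y ∈ P i → y' ∈ P i) ∧ ∀ y, {a | update y i a ∈ P i}.Countable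

noncomputable def lam : Cardinal.{0} := ⨆ n, cc n

lemma cc_le (n : ℕ) : cc n ≤ lam := le_ciSup (Cardinal.bddAbove_range _) n

def G (n : (ℕ → K) → ℕ) : ℕ → ℕ → (ℕ → K) → Prop
  | 0, i, x => ∃ z, ag i z x ∧ n z ≤ i
  | j + 1, i, x => lam < #{a | G n j (i + 1) (update x i a)}

lemma exG (hK : lam < #K) (n : (ℕ → K) → ℕ) (x0 : ℕ → K) : ∃ k, G n k 0 x0 := by
  by_contra h
  push Not at h
  have step : ∀ (i : ℕ) (x : ℕ → K), ∃ a : K,
      (∀ j, ¬ G n j i x) → ∀ j, ¬ G n j (i + 1) (update x i a) := by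
    intro i x
    by_cases hx : ∀ j, ¬ G n j i x
    · have hB : #(⋃ j : ℕ, {a | G n j (i + 1) (update x i a)}) ≤ lam := by
        refine (Cardinal.mk_iUnion_le _).trans ?_
        have h2 : (⨆ j : ℕ, #{a | G n j (i + 1) (update x i a)}) ≤ lam :=
          ciSup_le' fun j => not_lt.mp (hx (j + 1))
        have h3 : ℵ₀ ≤ lam := cc_le 0
        calc #ℕ * (⨆ j : ℕ, #{a | G n j (i + 1) (update x i a)}) ≤ lam * lam :=
              mul_le_mul' (by simpa using h3) h2
          _ = lam := Cardinal.mul_eq_self h3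
      have hne : ¬ (univ : Set K) ⊆ ⋃ j : ℕ, {a | G n j (i + 1) (update x i a)} := fun h =>
        absurd ((Cardinal.mk_le_mk_of_subset h).trans hB) (by simpa using hK)
      obtain ⟨a, -, ha⟩ := not_subset.mp hne
      exact ⟨a, fun _ j hj => ha (mem_iUnion.mpr ⟨j, hj⟩)⟩
    · exact ⟨x 0, fun h => absurd h hx⟩
  choose f hf using step
  let xs : ℕ → ℕ → K := fun i => Nat.rec x0 (fun i x => update x i (f i x)) i
  have hxs : ∀ i, xs (i + 1) = update (xs i) i (f i (xs i)) := fun _ => rfl
  have h1 : ∀ i j, ¬ G n j i (xs i) := by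
    intro i
    induction i with
    | zero => exact h
    | succ i ih => rw [hxs]; exact hf i _ ih
  have h2 : ∀ i, ag i (fun l => xs (l + 1) l) (xs i) := by
    intro i
    induction i with
    | zero => intro l hl; omega
    | succ i ih =>
      intro l hl
      by_cases e : l = i
      · subst e; rfl
      · rw [hxs i, update_of_ne e]; exact ih l (by omega)
  exact h1 (n fun l => xs (l + 1) l) 0 ⟨_, h2 _, le_rfl⟩

lemma free (hK : lam < #K) (n : (ℕ → K) → ℕ) (P : (ℕ → K) → ℕ → Set (ℕ → K))
    (hP : ∀ x, Th (P x)) :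
    ∃ x y, (∀ i < n x, y ∉ P x i) ∧ (∀ i < n y, x ∉ P y i) := by
  classical
  have hne : Nonempty K := Cardinal.mk_ne_zero_iff.mp (ne_of_gt (lt_of_le_of_lt (zero_le) hK))
  obtain ⟨a0⟩ := hne
  obtain ⟨k, hk⟩ := exG hK n (fun _ => a0)
  have he : ∀ (i : ℕ) (x : ℕ → K), ∃ f : lam.out → K, Injective f ∧
      (G n (k - (i + 1) + 1) i x → ∀ a, G n (k - (i + 1)) (i + 1) (update x i (f a))) := by
    intro i x
    by_cases hx : G n (k - (i + 1) + 1) i x
    · have h1 : #(lam.out) ≤ #{a | G n (k - (i + 1)) (i + 1) (update x i a)} := by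
        rw [Cardinal.mk_out]; exact le_of_lt hx
      obtain ⟨f⟩ := h1
      exact ⟨fun a => (f a).1, Subtype.val_injective.comp f.injective, fun _ a => (f a).2⟩
    · have h1 : #(lam.out) ≤ #K := by rw [Cardinal.mk_out]; exact hK.le
      obtain ⟨f⟩ := h1
      exact ⟨f, f.injective, fun h => absurd h hx⟩
  choose e he1 he2 using he
  have hZ : ∀ x : ℕ → K, ∃ z, G n 0 k x → ag k z x ∧ n z ≤ k := by
    intro x
    by_cases hx : G n 0 k x
    · obtain ⟨z, hz⟩ := hx
      exact ⟨z, fun _ => hz⟩
    · exact ⟨x, fun h => absurd h hx⟩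
  choose Z hZ using hZ
  let nd : (ℕ → lam.out) → ℕ → ℕ → K := fun α i =>
    Nat.rec (fun _ => a0) (fun i x => update x i (e i x (α i))) i
  have hnd : ∀ α i, nd α (i + 1) = update (nd α i) i (e i (nd α i) (α i)) := fun _ _ => rfl
  have h1 : ∀ α i, i ≤ k → G n (k - i) i (nd α i) := by
    intro α i
    induction i with
    | zero => intro _; exact hk
    | succ i ih =>
      intro hi
      rw [hnd]
      apply he2
      have : k - (i + 1) + 1 = k - i := by omega
      rw [this]
      exact ih (by omega)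
  have h2 : ∀ α i m, i ≤ m → ag i (nd α m) (nd α i) := by
    intro α i m him
    induction m, him using Nat.le_induction with
    | base => intro _ _; rfl
    | succ m him ih =>
      intro l hl
      rw [hnd, update_of_ne (by omega)]
      exact ih l hl
  have h3 : ∀ α β i, (∀ j < i, α j = β j) → nd α i = nd β i := by
    intro α β i
    induction i with
    | zero => intro _; rfl
    | succ i ih =>
      intro h
      rw [hnd, hnd, ih fun j hj => h j (by omega), h i (by omega)]
  have h4 : ∀ α, ag k (Z (nd α k)) (nd α k) ∧ n (Z (nd α k)) ≤ k := by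
    intro α
    apply hZ
    have := h1 α k le_rfl
    rwa [Nat.sub_self] at this
  let F : (Bool × ℕ → lam.out) → Bool × ℕ → Set lam.out := fun c p =>
    {a | update (nd (fun j => c (p.1, j)) p.2) p.2 (e p.2 (nd (fun j => c (p.1, j)) p.2) a) ∈
      P (Z (nd (fun j => c (!p.1, j)) k)) p.2}
  have hLne : Nonempty lam.out := by
    apply Cardinal.mk_ne_zero_iff.mp
    rw [Cardinal.mk_out]
    exact ne_of_gt (lt_of_lt_of_le Cardinal.aleph0_pos (cc_le 0))
  obtain ⟨l0⟩ := hLne
  obtain ⟨c, -, hc⟩ := fs F (fun c p => ((hP _ p.2).2 _).preimage_of_injOn (he1 _ _).injOn)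
    (by
      rintro c ⟨b, i⟩ a
      have e1 : nd (fun j => update c (b, i) a (b, j)) i = nd (fun j => c (b, j)) i := by
        apply h3
        intro j hj
        rw [update_of_ne]
        intro h
        have := congrArg Prod.snd h
        simp only at this
        omega
      have e2 : (fun j => update c (b, i) a (!b, j)) = fun j => c (!b, j) := by
        funext j
        rw [update_of_ne]
        intro h
        have := congrArg Prod.fst h
        simp at this
      simp only [F, e1, e2])
    (Finset.univ ×ˢ Finset.range k) univ (by simpa using cc_le _) (fun _ => l0)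
  have key : ∀ (b : Bool) (i : ℕ), i < n (Z (nd (fun j => c (!b, j)) k)) →
      Z (nd (fun j => c (b, j)) k) ∉ P (Z (nd (fun j => c (!b, j)) k)) i := by
    intro b i hi h
    have hik : i < k := lt_of_lt_of_le hi (h4 _).2
    apply (hc (b, i) (by simp [hik])).2
    refine (hP _ i).1 _ _ ?_ h
    intro l hl
    rw [(h4 _).1 l (by omega), h2 _ (i + 1) k hik l hl]
  exact ⟨_, _, key true, key false⟩

end Pool.Agent.H.MP_3dcd8c
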