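import Pool.Agent.H.MP_3dcd8c.A

set_option autoImplicit false
open Set Function Topology Filter
open Cardinal hiding univ

namespace Pool.Agent.H.MP_3dcd8c

variable {K : Type}

inductive X (K : Type) : Type
  | pt (x : ℕ → K)
  | iso (u v : ℕ → K)

def Thin (O : Set (ℕ → K)) : Prop := ∃ (k : ℕ) (P : ℕ → Set (ℕ → K)), Th P ∧ O ⊆ ⋃ i < k, P i

def cone (n : ℕ) (x : ℕ → K) : Set (ℕ → K) := {y | ag n y x}

def B (C O : Set (ℕ → K)) : Set (X K) := fun p =>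
  match p with
  | X.pt y => y ∈ C
  | X.iso u v => (u ∈ C ∧ v ∉ O) ∨ (v ∈ C ∧ u ∉ O)

lemma pt_B {C O : Set (ℕ → K)} {y : ℕ → K} : X.pt y ∈ B C O ↔ y ∈ C := Iff.rfl
lemma iso_B {C O : Set (ℕ → K)} {u v : ℕ → K} :
    X.iso u v ∈ B C O ↔ (u ∈ C ∧ v ∉ O) ∨ (v ∈ C ∧ u ∉ O) := Iff.rfl

lemma B_mono {C O C' O' : Set (ℕ → K)} (h : C ⊆ C') (h' : O' ⊆ O) : B C O ⊆ B C' O' := by
  rintro (y | ⟨u, v⟩) hp
  · exact h hp
  · rcases hp with hp | hp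
    · exact Or.inl ⟨h hp.1, fun e => hp.2 (h' e)⟩
    · exact Or.inr ⟨h hp.1, fun e => hp.2 (h' e)⟩

lemma cone_mono {n m : ℕ} (h : n ≤ m) (x : ℕ → K) : cone m x ⊆ cone n x :=
  fun _ hy i hi => hy i (lt_of_lt_of_le hi h)

lemma cone_self (n : ℕ) (x : ℕ → K) : x ∈ cone n x := fun _ _ => rfl

lemma cone_eq {n : ℕ} {x y : ℕ → K} (h : y ∈ cone n x) : cone n y = cone n x := by
  ext z
  exact ⟨fun hz i hi => (hz i hi).trans (h i hi), fun hz i hi => (hz i hi).trans (h i hi).symm⟩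

lemma Thin.union {O O' : Set (ℕ → K)} (h : Thin O) (h' : Thin O') : Thin (O ∪ O') := by
  obtain ⟨k, P, hP, hO⟩ := h
  obtain ⟨k', P', hP', hO'⟩ := h'
  refine ⟨max k k', fun i => P i ∪ P' i, fun i => ⟨?_, fun y => ((hP i).2 y).union ((hP' i).2 y)⟩, ?_⟩
  · rintro y y' h (hy | hy)
    · exact Or.inl ((hP i).1 _ _ h hy)
    · exact Or.inr ((hP' i).1 _ _ h hy)
  · rintro y (hy | hy)
    · obtain ⟨i, hi, hy⟩ := mem_iUnion₂.mp (hO hy)
      exact mem_iUnion₂.mpr ⟨i, lt_max_of_lt_left hi, Or.inl hy⟩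
    · obtain ⟨i, hi, hy⟩ := mem_iUnion₂.mp (hO' hy)
      exact mem_iUnion₂.mpr ⟨i, lt_max_of_lt_right hi, Or.inr hy⟩

lemma thin0 {C : Set K} (hC : C.Countable) : Thin {y : ℕ → K | y 0 ∈ C} := by
  refine ⟨1, fun i => {y | i = 0 ∧ y 0 ∈ C}, fun i => ⟨?_, fun y => ?_⟩, ?_⟩
  · rintro y y' h ⟨hi, hy⟩
    exact ⟨hi, h 0 (by omega) ▸ hy⟩
  · refine hC.mono ?_
    rintro a ⟨rfl, ha⟩
    simpa using ha
  · intro y hy
    exact mem_iUnion₂.mpr ⟨0, one_pos, rfl, hy⟩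

lemma thin_empty : Thin (∅ : Set (ℕ → K)) := by
  simpa using thin0 (K := K) countable_empty

instance : TopologicalSpace (X K) where
  IsOpen U := ∀ x, X.pt x ∈ U → ∃ n O, Thin O ∧ B (cone n x) O ⊆ U
  isOpen_univ := fun _ _ => ⟨0, ∅, thin_empty, subset_univ _⟩
  isOpen_inter := by
    intro s t hs ht x hx
    obtain ⟨n, O, hO, h⟩ := hs x hx.1
    obtain ⟨n', O', hO', h'⟩ := ht x hx.2
    exact ⟨max n n', O ∪ O', hO.union hO', subset_inter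
      ((B_mono (cone_mono (le_max_left _ _) x) subset_union_left).trans h)
      ((B_mono (cone_mono (le_max_right _ _) x) subset_union_right).trans h')⟩
  isOpen_sUnion := by
    rintro S hS x ⟨t, ht, hx⟩
    obtain ⟨n, O, hO, h⟩ := hS t ht x hx
    exact ⟨n, O, hO, h.trans (subset_sUnion_of_mem ht)⟩

lemma op_iff {U : Set (X K)} :
    IsOpen U ↔ ∀ x, X.pt x ∈ U → ∃ n O, Thin O ∧ B (cone n x) O ⊆ U := Iff.rfl

lemma B_open (n : ℕ) (x : ℕ → K) {O : Set (ℕ → K)} (hO : Thin O) : IsOpen (B (cone n x) O) :=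
  op_iff.mpr fun y hy => ⟨n, O, hO, by rw [cone_eq hy]⟩

lemma iso_open (u v : ℕ → K) : IsOpen {X.iso u v} :=
  op_iff.mpr fun _ hy => by cases hy

lemma nh {s : Set (X K)} {x : ℕ → K} (h : s ∈ 𝓝 (X.pt x)) :
    ∃ n O, Thin O ∧ B (cone n x) O ⊆ s := by
  obtain ⟨t, hts, ht, hx⟩ := mem_nhds_iff.mp h
  obtain ⟨n, O, hO, h⟩ := op_iff.mp ht x hx
  exact ⟨n, O, hO, h.trans hts⟩

lemma B_closed (n : ℕ) (x : ℕ → K) (O : Set (ℕ → K)) : IsClosed (B (cone (n + 1) x) O) := by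
  rw [← isOpen_compl_iff, op_iff]
  intro y hy
  refine ⟨n + 1, _, thin0 (countable_singleton (x 0)), ?_⟩
  have h0 : ∀ z, z ∈ cone (n + 1) y → z ∈ cone (n + 1) x → False := fun z h1 h2 =>
    hy (fun i hi => (h1 i hi).symm.trans (h2 i hi))
  rintro (z | ⟨u, v⟩) hp hq
  · exact h0 z hp hq
  · rcases hp with hp | hp <;> rcases hq with hq | hq
    · exact h0 _ hp.1 hq.1
    · exact hp.2 (hq.1 0 (by omega))
    · exact hp.2 (hq.1 0 (by omega))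
    · exact h0 _ hp.1 hq.1

instance : T1Space (X K) := by
  refine ⟨fun p => ?_⟩
  rw [← isOpen_compl_iff, op_iff]
  intro y hy
  rcases p with x | ⟨u, v⟩
  · have : y ≠ x := fun e => hy (by rw [e]; rfl)
    obtain ⟨i, hi⟩ := Function.ne_iff.mp this
    refine ⟨i + 1, ∅, thin_empty, ?_⟩
    rintro p hp rfl
    exact hi (hp i (by omega)).symm
  · refine ⟨0, _, thin0 ((countable_singleton (v 0)).insert (u 0)), ?_⟩
    rintro p hp rfl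
    rcases hp with hp | hp
    · exact hp.2 (Or.inr rfl)
    · exact hp.2 (Or.inl rfl)

instance : RegularSpace (X K) := by
  refine RegularSpace.of_exists_mem_nhds_isClosed_subset ?_
  rintro (x | ⟨u, v⟩) s hs
  · obtain ⟨n, O, hO, h⟩ := nh hs
    exact ⟨_, (B_open (n + 1) x hO).mem_nhds (cone_self _ _), B_closed n x O,
      (B_mono (cone_mono (Nat.le_succ n) x) Subset.rfl).trans h⟩
  · exact ⟨_, (iso_open u v).mem_nhds rfl, isClosed_singleton,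
      singleton_subset_iff.mpr (mem_of_mem_nhds hs)⟩

instance : T3Space (X K) where

lemma mcomp (𝒰 : Set (Set (X K))) (hU : ∀ U ∈ 𝒰, IsOpen U) (hc : ⋃₀ 𝒰 = univ) :
    ∃ 𝒱 : Set (Set (X K)), (∀ V ∈ 𝒱, IsOpen V) ∧ ⋃₀ 𝒱 = univ ∧
      (∀ V ∈ 𝒱, ∃ U ∈ 𝒰, V ⊆ U) ∧ ∀ x : X K, {V : Set (X K) | V ∈ 𝒱 ∧ x ∈ V}.Finite := by
  classical
  have hcov : ∀ p : X K, ∃ U ∈ 𝒰, p ∈ U := fun p => by
    have : p ∈ ⋃₀ 𝒰 := hc ▸ mem_univ p
    exact this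
  let ok : Set (ℕ → K) → Prop := fun C => ∃ O, Thin O ∧ ∃ U ∈ 𝒰, B C O ⊆ U
  have h1 : ∀ x, ∃ n, ok (cone n x) := by
    intro x
    obtain ⟨U, hU1, hU2⟩ := hcov (X.pt x)
    obtain ⟨n, O, hO, h⟩ := op_iff.mp (hU U hU1) x hU2
    exact ⟨n, O, hO, U, hU1, h⟩
  have h2 : ∀ C, ∃ O, ok C → Thin O ∧ ∃ U ∈ 𝒰, B C O ⊆ U := by
    intro C
    by_cases h : ok C
    · obtain ⟨O, hO⟩ := h
      exact ⟨O, fun _ => hO⟩
    · exact ⟨∅, fun h' => absurd h' h⟩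
  choose Q hQ using h2
  let D : (ℕ → K) → Set (ℕ → K) := fun x => cone (Nat.find (h1 x)) x
  have hD : ∀ x y, y ∈ D x → D y = D x := by
    intro x y hy
    have e1 : Nat.find (h1 y) ≤ Nat.find (h1 x) :=
      Nat.find_min' _ (by rw [cone_eq hy]; exact Nat.find_spec (h1 x))
    have hy' := cone_mono e1 x hy
    have e2 : Nat.find (h1 x) ≤ Nat.find (h1 y) :=
      Nat.find_min' _ (by rw [← cone_eq hy']; exact Nat.find_spec (h1 y))
    simp only [D]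
    rw [le_antisymm e1 e2, cone_eq hy]
  refine ⟨range (fun x => B (D x) (Q (D x))) ∪ {V | ∃ u v, V = {X.iso u v}}, ?_, ?_, ?_, ?_⟩
  · rintro V (⟨x, rfl⟩ | ⟨u, v, rfl⟩)
    · exact B_open _ _ (hQ _ (Nat.find_spec (h1 x))).1
    · exact iso_open u v
  · refine eq_univ_of_forall ?_
    rintro (x | ⟨u, v⟩)
    · exact ⟨_, Or.inl ⟨x, rfl⟩, cone_self _ _⟩
    · exact ⟨_, Or.inr ⟨u, v, rfl⟩, rfl⟩
  · rintro V (⟨x, rfl⟩ | ⟨u, v, rfl⟩)
    · exact (hQ _ (Nat.find_spec (h1 x))).2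
    · obtain ⟨U, hU1, hU2⟩ := hcov (X.iso u v)
      exact ⟨U, hU1, singleton_subset_iff.mpr hU2⟩
  · rintro (y | ⟨u, v⟩)
    · refine (finite_singleton (B (D y) (Q (D y)))).subset ?_
      rintro V ⟨⟨x, rfl⟩ | ⟨u, v, rfl⟩, hV⟩
      · rw [mem_singleton_iff, hD x y hV]
      · cases hV
    · refine (((finite_singleton (B (D u) (Q (D u)))).insert (B (D v) (Q (D v)))).insert
        {X.iso u v}).subset ?_
      rintro V ⟨⟨x, rfl⟩ | ⟨u', v', rfl⟩, hV⟩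
      · rcases hV with hV | hV
        · right; right; rw [mem_singleton_iff, hD x u hV.1]
        · right; left; rw [hD x v hV.1]
      · left; rw [mem_singleton_iff.mp hV]

def U0 (k : ℕ) (a : K) : Set (X K) := {p | ∀ y, p = X.pt y → y k = a}

lemma U0_open (k : ℕ) (a : K) : IsOpen (U0 k a) := by
  rw [op_iff]
  intro x hx
  refine ⟨k + 1, ∅, thin_empty, ?_⟩
  rintro p hp y rfl
  exact (hp k (by omega)).trans (hx x rfl)

lemma U0_cov [Nonempty K] (k : ℕ) (p : X K) : ∃ a, p ∈ U0 k a := by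
  rcases p with x | ⟨u, v⟩
  · exact ⟨x k, fun y h => by cases h; rfl⟩
  · exact ⟨u 0, fun y h => by cases h⟩

lemma cwh [Nonempty K] (𝓕 : Set (Set (X K))) (hF : ∀ F ∈ 𝓕, IsClosed F ∧ IsLindelof F)
    (hd : ∀ x : X K, ∃ N ∈ 𝓝 x, {F : Set (X K) | F ∈ 𝓕 ∧ (F ∩ N).Nonempty}.Subsingleton) :
    ∃ U : Set (X K) → Set (X K), (∀ F ∈ 𝓕, IsOpen (U F) ∧ F ⊆ U F) ∧
      (∀ F ∈ 𝓕, ∀ G ∈ 𝓕, F ≠ G → Disjoint (U F) (U G)) := by
  have h1 : ∀ x : ℕ → K, ∃ n O, Thin O ∧ ∀ F ∈ 𝓕, ∀ G ∈ 𝓕, ∀ p ∈ F, ∀ q ∈ G,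
      p ∈ B (cone n x) O → q ∈ B (cone n x) O → F = G := by
    intro x
    obtain ⟨N, hN, hs⟩ := hd (X.pt x)
    obtain ⟨n, O, hO, h⟩ := nh hN
    exact ⟨n, O, hO, fun F hF G hG p hp q hq hp' hq' =>
      hs ⟨hF, p, hp, h hp'⟩ ⟨hG, q, hq, h hq'⟩⟩
  choose n O hO hs using h1
  let P : ℕ → Set (ℕ → K) := fun k =>
    {v | ∃ y, (∃ F ∈ 𝓕, X.pt y ∈ F) ∧ n y = k ∧ ag (k + 1) v y}
  have hP : Th P := by
    intro k
    refine ⟨?_, fun w => ?_⟩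
    · rintro v v' h ⟨y, h1, h2, h3⟩
      exact ⟨y, h1, h2, fun i hi => (h i hi).symm.trans (h3 i hi)⟩
    · rcases eq_empty_or_nonempty {a | update w k a ∈ P k} with h | ⟨a0, y0, ⟨F0, hF0, hy0⟩, e0, g0⟩
      · rw [h]; exact countable_empty
      obtain ⟨r, hr, hr'⟩ := (hF F0 hF0).2.elim_countable_subcover (U0 k) (U0_open k)
        (fun p _ => mem_iUnion.mpr (U0_cov k p))
      refine hr.mono ?_
      rintro a ⟨y, ⟨F, hF1, hy⟩, -, g⟩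
      have e : F = F0 := by
        refine hs y0 F hF1 F0 hF0 _ hy _ hy0 ?_ (cone_self _ _)
        intro i hi
        rw [e0] at hi
        rw [← g i (by omega), ← g0 i (by omega), update_of_ne (by omega), update_of_ne (by omega)]
      obtain ⟨b, hb, hyb⟩ := mem_iUnion₂.mp (hr' (e ▸ hy))
      have := g k (by omega)
      rw [update_self, hyb y rfl] at this
      exact this ▸ hb
  let W : (ℕ → K) → Set (X K) := fun x => B (cone (n x + 1) x) (O x ∪ ⋃ i < n x + 1, P i)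
  have hWo : ∀ x, Thin (O x ∪ ⋃ i < n x + 1, P i) := fun x =>
    (hO x).union ⟨_, P, hP, Subset.rfl⟩
  have hW : ∀ x, W x ⊆ B (cone (n x) x) (O x) := fun x =>
    B_mono (cone_mono (Nat.le_succ _) x) subset_union_left
  have key : ∀ F ∈ 𝓕, ∀ G ∈ 𝓕, ∀ x y, X.pt x ∈ F → X.pt y ∈ G → n y ≤ n x →
      ∀ p ∈ W x, p ∈ W y → F = G := by
    intro F hF G hG x y hx hy hn p hp hq
    have h0 : ∀ z, z ∈ cone (n x + 1) x → z ∈ cone (n y + 1) y → F = G := fun z h1 h2 =>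
      hs y F hF G hG _ hx _ hy
        (fun i hi => (h1 i (by omega)).symm.trans (h2 i (by omega))) (cone_self _ _)
    have h1 : ∀ z, z ∈ cone (n y + 1) y → z ∈ O x ∪ ⋃ i < n x + 1, P i := fun z h =>
      Or.inr (mem_iUnion₂.mpr ⟨n y, by omega, y, ⟨G, hG, hy⟩, rfl, h⟩)
    rcases p with z | ⟨u, v⟩
    · exact h0 z hp hq
    · rcases hp with hp | hp <;> rcases hq with hq | hq
      · exact h0 _ hp.1 hq.1
      · exact absurd (h1 _ hq.1) hp.2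
      · exact absurd (h1 _ hq.1) hp.2
      · exact h0 _ hp.1 hq.1
  refine ⟨fun F => F ∪ ⋃ x ∈ {x | X.pt x ∈ F}, W x, fun F _ => ⟨?_, subset_union_left⟩, ?_⟩
  · rw [op_iff]
    rintro y (hy | hy)
    · exact ⟨_, _, hWo y, (subset_biUnion_of_mem (u := W) hy).trans subset_union_right⟩
    · obtain ⟨x, hx, hy⟩ := mem_iUnion₂.mp hy
      obtain ⟨m, O', hO', h⟩ := op_iff.mp (B_open _ x (hWo x)) y hy
      exact ⟨m, O', hO', h.trans ((subset_biUnion_of_mem (u := W) hx).trans subset_union_right)⟩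
  · intro F hF G hG hne
    rw [Set.disjoint_left]
    rintro p (hp | hp) (hq | hq)
    · obtain ⟨N, hN, hs'⟩ := hd p
      exact hne (hs' ⟨hF, p, hp, mem_of_mem_nhds hN⟩ ⟨hG, p, hq, mem_of_mem_nhds hN⟩)
    · obtain ⟨y, hy, hq⟩ := mem_iUnion₂.mp hq
      exact hne (hs y F hF G hG _ hp _ hy (hW y hq) (cone_self _ _))
    · obtain ⟨x, hx, hp⟩ := mem_iUnion₂.mp hp
      exact hne (hs x F hF G hG _ hx _ hq (cone_self _ _) (hW x hp))
    · obtain ⟨x, hx, hp⟩ := mem_iUnion₂.mp hp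
      obtain ⟨y, hy, hq⟩ := mem_iUnion₂.mp hq
      rcases le_total (n y) (n x) with h | h
      · exact hne (key F hF G hG x y hx hy h p hp hq)
      · exact hne (key G hG F hF y x hy hx h p hq hp).symm

lemma npl (hK : lam < #K) : ¬ ∃ 𝒱 : Set (Set (X K)), (∀ V ∈ 𝒱, IsOpen V) ∧ ⋃₀ 𝒱 = univ ∧
    (∀ V ∈ 𝒱, ∃ U ∈ range (U0 0), V ⊆ U) ∧
    ∀ x : X K, ∃ N ∈ 𝓝 x, {V : Set (X K) | V ∈ 𝒱 ∧ (V ∩ N).Nonempty}.Countable := by
  rintro ⟨𝒱, ho, hc, hr, hl⟩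
  have h1 : ∀ x : ℕ → K, ∃ V ∈ 𝒱, X.pt x ∈ V := fun x => by
    have : X.pt x ∈ ⋃₀ 𝒱 := hc ▸ mem_univ _
    exact this
  choose V hV hxV using h1
  choose N hN hNc using hl
  have h2 : ∀ x : ℕ → K, ∃ n O, Thin O ∧ B (cone n x) O ⊆ N (X.pt x) ∩ V x := fun x =>
    nh (inter_mem (hN _) ((ho _ (hV x)).mem_nhds (hxV x)))
  choose n O hO hB using h2
  have h3 : ∀ x : ℕ → K, (⋃ T ∈ {T : Set (X K) | T ∈ 𝒱 ∧ (T ∩ N (X.pt x)).Nonempty},
      {a | ∃ y, X.pt y ∈ T ∧ y 0 = a}).Countable := by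
    intro x
    refine (hNc _).biUnion fun T hT => ?_
    obtain ⟨_, ⟨b, rfl⟩, hb⟩ := hr T hT.1
    refine (countable_singleton b).mono ?_
    rintro a ⟨y, hy, rfl⟩
    exact hb hy y rfl
  choose k P hP hs using fun x => (hO x).union (thin0 (h3 x))
  obtain ⟨x, y, hx, hy⟩ := free hK k P hP
  have g1 : ∀ x y, (∀ i < k x, y ∉ P x i) → y ∉ _ := fun x y h h' => by
    obtain ⟨i, hi, hy⟩ := mem_iUnion₂.mp (hs x h')
    exact h i hi hy
  have gx := g1 x y hx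
  have gy := g1 y x hy
  refine gx (Or.inr (mem_iUnion₂.mpr ⟨V y, ⟨hV y, X.iso x y, ?_, ?_⟩, y, hxV y, rfl⟩))
  · exact (hB y (Or.inr ⟨cone_self _ _, fun h => gy (Or.inl h)⟩)).2
  · exact (hB x (Or.inl ⟨cone_self _ _, fun h => gx (Or.inl h)⟩)).1

end Pool.Agent.H.MP_3dcd8c
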